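import Pool.Agent.H6.TP.Targets

/-!
# Partial summation: from the natural to the logarithmic average
-/

set_option autoImplicit false

open Finset

namespace Pool.Agent.H14.TP

open Pool.Agent.H6.TP

theorem sum_inv_le (N : ℕ) : ∑ z ∈ Icc 1 N, 1 / (z : ℝ) ≤ 1 + Real.log N := by
  have h := harmonic_le_one_add_log N
  rw [harmonic_eq_sum_Icc] at h
  push_cast at h
  simpa only [one_div] using h

theorem abel (F : ℕ → ℝ) (hF : ∀ n, 0 ≤ F n) (N : ℕ) (hN : 1 ≤ N) :
    ∑ z ∈ Icc 1 N, F z / z ≤ (∑ z ∈ range (N + 1), F z) / N +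
      ∑ z ∈ Ico 1 N, (∑ u ∈ range (z + 1), F u) / (z * (z + 1)) := by
  induction N, hN using Nat.le_induction with
  | base =>
    rw [Finset.Icc_self, Finset.sum_singleton, Finset.Ico_self, Finset.sum_empty,
      Finset.sum_range_succ, Finset.sum_range_one]
    have := hF 0
    simp only [Nat.cast_one, div_one, add_zero]
    linarith
  | succ N hN ih =>
    have hN' : (0 : ℝ) < N := by exact_mod_cast hN
    rw [Finset.sum_Icc_succ_top (by omega), Finset.sum_Ico_succ_top hN,
      Finset.sum_range_succ _ (N + 1)]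
    have e1 : (∑ z ∈ range (N + 1), F z + F (N + 1)) / ((N + 1 : ℕ) : ℝ) +
        (∑ z ∈ Ico 1 N, (∑ u ∈ range (z + 1), F u) / ((z : ℝ) * (z + 1)) +
          (∑ u ∈ range (N + 1), F u) / ((N : ℝ) * (N + 1))) =
        ((∑ z ∈ range (N + 1), F z) / N +
          ∑ z ∈ Ico 1 N, (∑ u ∈ range (z + 1), F u) / ((z : ℝ) * (z + 1))) +
          F (N + 1) / ((N + 1 : ℕ) : ℝ) := by
      push_cast
      field_simp
      ring
    rw [e1]
    linarith

/-- PSU. Partial summation: from the natural to the logarithmic average. -/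
theorem pf_PSU : T_PSU := by
  intro F ε N₀ hF hε hsum N hN
  have hN' : (1 : ℝ) ≤ N := by exact_mod_cast hN
  have h1 := abel F (fun n => (hF n).1) N hN
  have htr : ∀ M : ℕ, ∑ z ∈ range M, F z ≤ M := by
    intro M
    calc ∑ z ∈ range M, F z ≤ ∑ z ∈ range M, (1 : ℝ) := Finset.sum_le_sum fun z _ => (hF z).2
      _ = M := by simp
  have h2 : (∑ z ∈ range (N + 1), F z) / N ≤ 2 * ε + 2 := by
    rw [div_le_iff₀ (by linarith)]
    by_cases hc : N₀ ≤ N + 1
    · have h3 := hsum (N + 1) hc
      push_cast at h3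
      nlinarith
    · have h3 := htr (N + 1)
      push_cast at h3
      nlinarith
  have h3 : ∀ z ∈ Ico 1 N, (∑ u ∈ range (z + 1), F u) / ((z : ℝ) * (z + 1)) ≤
      (if z + 1 < N₀ then 1 else 0) + ε * (1 / (z : ℝ)) := by
    intro z hz
    have hz1 : 1 ≤ z := (Finset.mem_Ico.1 hz).1
    have hz' : (1 : ℝ) ≤ z := by exact_mod_cast hz1
    have hpos : (0 : ℝ) < z * (z + 1) := by positivity
    by_cases hc : z + 1 < N₀
    · rw [if_pos hc]
      have h4 := htr (z + 1)
      push_cast at h4
      have h5 : (∑ u ∈ range (z + 1), F u) / ((z : ℝ) * (z + 1)) ≤ 1 := by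
        rw [div_le_iff₀ hpos]
        nlinarith
      have h6 : 0 ≤ ε * (1 / (z : ℝ)) := by positivity
      linarith
    · rw [if_neg hc, zero_add]
      have h4 := hsum (z + 1) (by omega)
      push_cast at h4
      rw [div_le_iff₀ hpos]
      calc ∑ u ∈ range (z + 1), F u ≤ ε * (z + 1) := h4
        _ = ε * (1 / (z : ℝ)) * (z * (z + 1)) := by field_simp
  have h4 : ∑ z ∈ Ico 1 N, (∑ u ∈ range (z + 1), F u) / ((z : ℝ) * (z + 1)) ≤
      N₀ + ε * (1 + Real.log N) := by
    refine (Finset.sum_le_sum h3).trans ?_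
    rw [Finset.sum_add_distrib, ← Finset.mul_sum]
    apply add_le_add
    · rw [Finset.sum_ite, Finset.sum_const_zero, add_zero, Finset.sum_const, nsmul_eq_mul,
        mul_one]
      have h5 : ((Ico 1 N).filter fun z => z + 1 < N₀) ⊆ range N₀ := by
        intro z hz
        rw [Finset.mem_filter] at hz
        rw [Finset.mem_range]
        omega
      have h6 := Finset.card_le_card h5
      rw [Finset.card_range] at h6
      exact_mod_cast h6
    · apply mul_le_mul_of_nonneg_left _ hε
      refine le_trans ?_ (sum_inv_le N)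
      apply Finset.sum_le_sum_of_subset_of_nonneg
      · intro z hz
        rw [Finset.mem_Ico] at hz
        rw [Finset.mem_Icc]
        omega
      · intro z _ _
        positivity
  linarith

end Pool.Agent.H14.TP
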