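import Pool.Agent.H14.TP.PSU

/-!
# Averages over sub-windows: exchange of the sums
-/

set_option autoImplicit false

open Finset

namespace Pool.Agent.H14.TP

open Pool.Agent.H6.TP

/-- SWP. Averages over sub-windows: exchange of the sums. -/
theorem pf_SWP : T_SWP := by
  classical
  intro B ε N₀ hB hε
  refine ⟨Real.exp ((10 * ε + 2 * B * (N₀ + 2)) / (6 * ε)), ?_⟩
  intro S X Y hS hsum hX hNY hY hYX
  have hX0 : 0 < X := lt_of_lt_of_le (Real.exp_pos _) hX
  have hYr : (1 : ℝ) ≤ Y := by exact_mod_cast hY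
  have hX1 : 1 ≤ X := hYr.trans hYX
  have hlogX : (10 * ε + 2 * B * (N₀ + 2)) / (6 * ε) ≤ Real.log X := by
    rw [Real.le_log_iff_exp_le hX0]
    exact hX
  have hlogX' : 10 * ε + 2 * B * (N₀ + 2) ≤ 6 * ε * Real.log X := by
    rw [div_le_iff₀ (by positivity)] at hlogX
    linarith
  have hlog0 : 0 ≤ Real.log X := Real.log_nonneg hX1
  set M := ⌊X⌋₊ with hM
  have hMX : (M : ℝ) ≤ X := Nat.floor_le hX0.le
  have hYM : Y ≤ M := Nat.le_floor hYX
  have hM1 : 1 ≤ M := hY.trans hYM
  have hM' : (1 : ℝ) ≤ M := by exact_mod_cast hM1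
  have hlogM : Real.log M ≤ Real.log X := Real.log_le_log (by linarith) hMX
  -- the small `n`
  have hsmall : ∑ n ∈ (Icc 1 M).filter (fun n => n < Y),
      1 / (n : ℝ) * ((∑ u ∈ Ico n (n + Y), S u) / Y) ≤ 2 * ε * (1 + Real.log X) := by
    have h1 : ∀ n ∈ (Icc 1 M).filter (fun n => n < Y),
        1 / (n : ℝ) * ((∑ u ∈ Ico n (n + Y), S u) / Y) ≤ 2 * ε * (1 / (n : ℝ)) := by
      intro n hn
      rw [Finset.mem_filter, Finset.mem_Icc] at hn
      have h2 : ∑ u ∈ Ico n (n + Y), S u ≤ ∑ u ∈ range (2 * Y), S u := by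
        apply Finset.sum_le_sum_of_subset_of_nonneg
        · intro u hu
          rw [Finset.mem_Ico] at hu
          rw [Finset.mem_range]
          omega
        · intro u _ _
          exact (hS u).1
      have h3 := hsum (2 * Y) (by omega)
      push_cast at h3
      have h4 : (∑ u ∈ Ico n (n + Y), S u) / Y ≤ 2 * ε := by
        rw [div_le_iff₀ (by linarith)]
        linarith
      have h5 : 0 ≤ 1 / (n : ℝ) := by positivity
      calc 1 / (n : ℝ) * ((∑ u ∈ Ico n (n + Y), S u) / Y) ≤ 1 / (n : ℝ) * (2 * ε) :=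
            mul_le_mul_of_nonneg_left h4 h5
        _ = 2 * ε * (1 / (n : ℝ)) := by ring
    refine (Finset.sum_le_sum h1).trans ?_
    rw [← Finset.mul_sum]
    apply mul_le_mul_of_nonneg_left _ (by positivity)
    calc ∑ n ∈ (Icc 1 M).filter (fun n => n < Y), 1 / (n : ℝ) ≤ ∑ n ∈ Icc 1 M, 1 / (n : ℝ) := by
          apply Finset.sum_le_sum_of_subset_of_nonneg (Finset.filter_subset _ _)
          intro n _ _
          positivity
      _ ≤ 1 + Real.log M := sum_inv_le M
      _ ≤ 1 + Real.log X := by linarith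
  -- the large `n`
  have hPSU := pf_PSU (fun u => S u / B) (ε / B) N₀
    (fun n => ⟨div_nonneg (hS n).1 hB.le, (div_le_one hB).2 (hS n).2⟩) (by positivity)
    (by
      intro N hN
      rw [← Finset.sum_div, div_mul_eq_mul_div]
      exact div_le_div_of_nonneg_right (hsum N hN) hB.le)
    (2 * M) (by omega)
  have hPS : ∑ u ∈ Icc 1 (2 * M), S u / u ≤ ε * (3 + Real.log (2 * M)) + B * (N₀ + 2) := by
    have e1 : ∑ u ∈ Icc 1 (2 * M), S u / u = B * ∑ u ∈ Icc 1 (2 * M), S u / B / u := by
      rw [Finset.mul_sum]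
      apply Finset.sum_congr rfl
      intro u _
      field_simp
    rw [e1]
    have h1 := mul_le_mul_of_nonneg_left hPSU hB.le
    refine h1.trans (le_of_eq ?_)
    push_cast
    field_simp
    ring
  have hlog2 : Real.log (2 * M) ≤ 1 + Real.log X := by
    rw [Real.log_mul two_ne_zero (by linarith)]
    have := Real.log_two_lt_d9
    linarith
  have hlarge : ∑ n ∈ (Icc 1 M).filter (fun n => ¬ n < Y),
      1 / (n : ℝ) * ((∑ u ∈ Ico n (n + Y), S u) / Y) ≤ 2 * ∑ u ∈ Icc 1 (2 * M), S u / u := by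
    have h1 : ∀ n ∈ (Icc 1 M).filter (fun n => ¬ n < Y),
        1 / (n : ℝ) * ((∑ u ∈ Ico n (n + Y), S u) / Y) ≤
          ∑ u ∈ Icc 1 (2 * M), (if n ≤ u ∧ u < n + Y then 2 * (S u / u) / Y else 0) := by
      intro n hn
      rw [Finset.mem_filter, Finset.mem_Icc] at hn
      have e1 : 1 / (n : ℝ) * ((∑ u ∈ Ico n (n + Y), S u) / Y) =
          ∑ u ∈ Ico n (n + Y), 1 / (n : ℝ) * S u / Y := by
        rw [← mul_div_assoc, Finset.mul_sum, Finset.sum_div]
      rw [e1]
      have h2 : ∀ u ∈ Ico n (n + Y), 1 / (n : ℝ) * S u / Y ≤ 2 * (S u / u) / Y := by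
        intro u hu
        rw [Finset.mem_Ico] at hu
        have hn0 : (0 : ℝ) < n := by exact_mod_cast hn.1.1
        have hu0 : (0 : ℝ) < u := by
          have : 0 < u := by omega
          exact_mod_cast this
        have hun : (u : ℝ) ≤ 2 * n := by
          have : u ≤ 2 * n := by omega
          exact_mod_cast this
        apply div_le_div_of_nonneg_right _ (by linarith)
        have h3 : 1 / (n : ℝ) ≤ 2 / u := by
          rw [div_le_div_iff₀ hn0 hu0]
          linarith
        calc 1 / (n : ℝ) * S u ≤ 2 / u * S u := mul_le_mul_of_nonneg_right h3 (hS u).1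
          _ = 2 * (S u / u) := by ring
      refine (Finset.sum_le_sum h2).trans ?_
      rw [← Finset.sum_filter]
      apply Finset.sum_le_sum_of_subset_of_nonneg
      · intro u hu
        rw [Finset.mem_Ico] at hu
        rw [Finset.mem_filter, Finset.mem_Icc]
        refine ⟨⟨by omega, by omega⟩, hu.1, hu.2⟩
      · intro u _ _
        have := (hS u).1
        positivity
    refine (Finset.sum_le_sum h1).trans ?_
    rw [Finset.sum_comm, Finset.mul_sum]
    apply Finset.sum_le_sum
    intro u hu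
    rw [Finset.mem_Icc] at hu
    have hSu := (hS u).1
    rw [← Finset.sum_filter, Finset.sum_const, nsmul_eq_mul]
    have hcard : ((((Icc 1 M).filter (fun n => ¬ n < Y)).filter
        (fun n => n ≤ u ∧ u < n + Y)).card : ℝ) ≤ Y := by
      have h3 : ((Icc 1 M).filter (fun n => ¬ n < Y)).filter (fun n => n ≤ u ∧ u < n + Y) ⊆
          Ioc (u - Y) u := by
        intro n hn
        rw [Finset.mem_filter, Finset.mem_filter, Finset.mem_Icc] at hn
        rw [Finset.mem_Ioc]
        omega
      have h4 := Finset.card_le_card h3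
      rw [Nat.card_Ioc] at h4
      have h5 : u - (u - Y) ≤ Y := by omega
      exact_mod_cast h4.trans h5
    have h6 : 0 ≤ 2 * (S u / u) / Y := by positivity
    calc _ ≤ (Y : ℝ) * (2 * (S u / u) / Y) := mul_le_mul_of_nonneg_right hcard h6
      _ = 2 * (S u / u) := by field_simp
  rw [← Finset.sum_filter_add_sum_filter_not (Icc 1 M) (fun n => n < Y)]
  have h7 : ε * Real.log (2 * M) ≤ ε * (1 + Real.log X) := mul_le_mul_of_nonneg_left hlog2 hε.le
  nlinarith

end Pool.Agent.H14.TP
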